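import Mathlib

set_option autoImplicit false

namespace Pool.Agent.Results.MP_caf75b_al.No

open scoped commutatorElement

/-- The quandle axioms. -/
def IsQuandle {X : Type} (op : X → X → X) : Prop :=
  (∀ a, op a a = a) ∧ (∀ b c, ∃! a, op a b = c) ∧
    ∀ a b c, op (op a b) c = op (op a c) (op b c)

/-- The group generated by the right translations acts transitively. -/
def Connected {X : Type} (op : X → X → X) : Prop :=
  ∀ x y, ∃ g ∈ Subgroup.closure {s : Equiv.Perm X | ∃ a, ∀ z, s z = op z a}, g x = y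

/-- (Y, oY) is isomorphic to an abelian extension E(X, A, phi) with A nontrivial. -/
def IsExt {X Y : Type} (oX : X → X → X) (oY : Y → Y → Y) : Prop :=
  ∃ (A : Type) (_ : AddCommGroup A) (_ : Nontrivial A) (φ : X → X → A) (e : Y ≃ X × A),
    (∀ x y z, φ x y - φ x z + φ (oX x y) z - φ (oX x z) (oX y z) = 0) ∧ (∀ x, φ x x = 0) ∧
      ∀ u v, e (oY u v) = (oX (e u).1 (e v).1, (e u).2 + φ (e u).1 (e v).1)

lemma schur {D : Type} [Group D] [Finite D] (K : Subgroup D) (h1 : K ≤ Subgroup.center D)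
    (h2 : K ≤ commutator D) (m : ℕ) (hm : K.index ≤ m) :
    Nat.card D ≤ m ^ (m * (m * m) + 1) * m := by
  have hi := (Subgroup.index_antitone h1).trans hm
  have hj := (Subgroup.index_antitone h2).trans hm
  have h0 : 0 < (Subgroup.center D).index := Nat.pos_of_ne_zero Subgroup.FiniteIndex.index_ne_zero
  have hc : Nat.card (commutatorSet D) ≤ m * m := by
    have : Nat.card (commutatorSet D) ≤
        Nat.card ((D ⧸ Subgroup.center D) × (D ⧸ Subgroup.center D)) := by
      refine Nat.card_le_card_of_surjective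
        (fun p => ⟨⁅p.1.out, p.2.out⁆, commutator_mem_commutatorSet _ _⟩) ?_
      rintro ⟨_, a, b, rfl⟩
      refine ⟨(a, b), Subtype.ext ?_⟩
      obtain ⟨x, hx⟩ := QuotientGroup.mk_out_eq_mul (Subgroup.center D) a
      obtain ⟨y, hy⟩ := QuotientGroup.mk_out_eq_mul (Subgroup.center D) b
      have cx := Subgroup.mem_center_iff.1 x.2
      have cy := Subgroup.mem_center_iff.1 y.2
      simp only [hx, hy, commutatorElement_def]
      calc a * x * (b * y) * (a * x)⁻¹ * (b * y)⁻¹
          = a * (x * (b * y) * (x : D)⁻¹) * a⁻¹ * (b * y)⁻¹ := by group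
        _ = a * (b * y) * a⁻¹ * (b * y)⁻¹ := by rw [← cx, mul_inv_cancel_right]
        _ = a * b * (y * a⁻¹ * (y : D)⁻¹) * b⁻¹ := by group
        _ = _ := by rw [← cy, mul_inv_cancel_right]
    rw [Nat.card_prod] at this
    exact this.trans (Nat.mul_le_mul hi hi)
  rw [← (commutator D).card_mul_index]
  refine Nat.mul_le_mul ?_ hj
  refine (Nat.le_of_dvd (pow_pos h0 _) (Subgroup.card_commutator_dvd_index_center_pow D)).trans ?_
  exact (Nat.pow_le_pow_left hi _).trans
    (Nat.pow_le_pow_right (h0.trans_le hi) (Nat.succ_le_succ (Nat.mul_le_mul hi hc)))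

lemma three {G : Type} [Group G] (N A B C : Subgroup G) [N.Normal] (h1 : ⁅⁅B, C⁆, A⁆ ≤ N)
    (h2 : ⁅⁅C, A⁆, B⁆ ≤ N) : ⁅⁅A, B⁆, C⁆ ≤ N := by
  rw [← QuotientGroup.ker_mk' N, ← Subgroup.map_eq_bot_iff] at h1 h2 ⊢
  simp only [Subgroup.map_commutator] at h1 h2 ⊢
  exact Subgroup.commutator_commutator_eq_bot_of_rotate h1 h2

lemma grp {G : Type} [Group G] [Finite G] (F : ℕ → Subgroup G) (hn : ∀ n, (F n).Normal)
    (hc : ∀ n, ⁅F n, ⊤⁆ ≤ F (n + 1)) (M : ℕ) (hM : F M = ⊥) (D : Subgroup G) [D.Normal] (r : G)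
    (hD : D ≤ Subgroup.closure {x | ∃ d ∈ D, x = ⁅d, r⁆}) :
    (F 0).subgroupOf D ≤ Subgroup.center D ∧ (F 0).subgroupOf D ≤ commutator D := by
  have hD1 : D ≤ ⁅D, ⊤⁆ := hD.trans ((Subgroup.closure_le _).2 (by
    rintro _ ⟨d, hd, rfl⟩
    exact Subgroup.commutator_mem_commutator hd trivial))
  have key : ∀ k n, ⁅F n, D⁆ ≤ F (n + k) := by
    intro k
    induction k with
    | zero => exact fun n => Subgroup.commutator_le_left _ _
    | succ k ih =>
      intro n
      have := hn (n + k + 1)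
      rw [Subgroup.commutator_comm]
      refine (Subgroup.commutator_mono hD1 le_rfl).trans (three (F (n + k + 1)) _ _ _ ?_ ?_)
      · rw [Subgroup.commutator_comm ⊤]
        refine (Subgroup.commutator_mono (hc n) le_rfl).trans ((ih (n + 1)).trans_eq ?_)
        rw [Nat.add_right_comm]
      · exact (Subgroup.commutator_mono (ih n) le_rfl).trans (hc _)
  constructor
  · intro x hx
    rw [Subgroup.mem_center_iff]
    intro y
    have := key M 0 (Subgroup.commutator_mem_commutator hx y.2)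
    rw [zero_add, hM, Subgroup.mem_bot, commutatorElement_eq_one_iff_mul_comm] at this
    exact Subtype.ext this.symm
  · let ψ : Abelianization D →* Abelianization D :=
      Abelianization.lift (Abelianization.of * (Abelianization.of.comp
        (MulAut.conjNormal r : MulAut D).toMonoidHom)⁻¹)
    let c : D → D := fun d => d * MulAut.conjNormal r d⁻¹
    have hcv : ∀ d, (c d : G) = ⁅(d : G), r⁆ := fun d => by
      simp [c, commutatorElement_def, mul_assoc]
    have hψ : ∀ d : D, ψ (Abelianization.of d) = Abelianization.of (c d) := fun d => by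
      simp [ψ, c]
    have hs : Function.Surjective ψ := by
      intro y
      obtain ⟨⟨x, hx⟩, rfl⟩ := QuotientGroup.mk'_surjective _ y
      have : ∀ z ∈ Subgroup.closure {x | ∃ d ∈ D, x = ⁅d, r⁆},
          z ∈ (ψ.range.comap Abelianization.of).map D.subtype := by
        refine fun z hz => (Subgroup.closure_le _).2 ?_ hz
        rintro _ ⟨d, hd, rfl⟩
        exact ⟨c ⟨d, hd⟩, ⟨_, hψ _⟩, hcv _⟩
      obtain ⟨z, hz, rfl⟩ := this x (hD hx)
      exact hz
    have hi := Finite.injective_iff_surjective.2 hs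
    have : ∀ j n, n + j = M → ∀ d : D, (d : G) ∈ F n → Abelianization.of d = 1 := by
      intro j
      induction j with
      | zero =>
        intro n h d hd
        rw [show n = M from h, hM, Subgroup.mem_bot] at hd
        rw [show d = 1 from Subtype.ext hd, map_one]
      | succ j ih =>
        intro n h d hd
        apply hi
        rw [hψ, map_one]
        refine ih (n + 1) (by omega) _ ?_
        rw [hcv]
        exact hc n (Subgroup.commutator_mem_commutator hd trivial)
    intro x hx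
    rw [← Abelianization.ker_of]
    exact this M 0 (by simp) x hx

lemma main {X Y : Type} [Finite X] [Finite Y] (q : X) (R : X → Equiv.Perm X)
    (hR : ∀ a b, R (R b a) = R b * R a * (R b)⁻¹) (hid : R q q = q)
    (hcon : ∀ x, ∃ g ∈ Subgroup.closure (Set.range R), g q = x) (E : ℕ → Setoid X)
    (hE : ∀ n z x y, E n (R z x) (R z y) ↔ E n x y)
    (hcov : ∀ n x y, E n x y → ∀ z, E (n + 1) (R x z) (R y z))
    (M : ℕ) (hM : ∀ x y, E M x y → x = y) (π : X → Y) (hπ : ∀ x y, π x = π y → E 0 x y)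
    (m : ℕ) (hm : Nat.card Y ^ Nat.card Y ≤ m) :
    Nat.card X ≤ m ^ (m * (m * m) + 1) * m := by
  classical
  let G := Subgroup.closure (Set.range R)
  let ρ : X → G := fun a => ⟨R a, Subgroup.subset_closure ⟨a, rfl⟩⟩
  have hgen : ∀ S : Subgroup G, (∀ a, ρ a ∈ S) → ∀ g, g ∈ S := by
    intro S hS g
    have : (⊤ : Subgroup G) ≤ S := by
      rw [← Subgroup.closure_closure_coe_preimage, Subgroup.closure_le]
      rintro ⟨_, _⟩ ⟨a, rfl⟩
      exact hS a
    exact this trivial
  have hEg : ∀ n (g : G) x y, E n (g.1 x) (g.1 y) ↔ E n x y := by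
    rintro n ⟨g, hg⟩
    induction hg using Subgroup.closure_induction with
    | mem _ h => obtain ⟨a, rfl⟩ := h; exact hE n a
    | one => simp
    | mul g h _ _ h1 h2 => exact fun x y => (h1 _ _).trans (h2 _ _)
    | inv g _ h => intro x y; rw [← h]; simp
  have hρ : ∀ (g : G) a, ρ (g.1 a) = g * ρ a * g⁻¹ := by
    rintro ⟨g, hg⟩
    simp only [Subtype.ext_iff, ρ, Subgroup.coe_mul, Subgroup.coe_inv]
    induction hg using Subgroup.closure_induction with
    | mem _ h => obtain ⟨a, rfl⟩ := h; exact fun b => hR b a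
    | one => simp
    | mul g h _ _ h1 h2 => intro a; rw [Equiv.Perm.mul_apply, h1, h2]; group
    | inv g _ h =>
      intro a
      have := h (g⁻¹ a)
      simp only [Equiv.Perm.coe_inv, Equiv.apply_symm_apply] at this
      rw [this]
      simp [mul_assoc]
  let F : ℕ → Subgroup G := fun n =>
    { carrier := {g | ∀ x, E n (g.1 x) x}
      one_mem' := fun x => (E n).refl x
      mul_mem' := fun {a b} ha hb x => (E n).trans (ha _) (hb x)
      inv_mem' := fun {a} ha x => (E n).symm (by simpa using ha (a.1⁻¹ x)) }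
  have hn : ∀ n, (F n).Normal := fun n => ⟨fun g hg h x => by
    have := (hEg n h _ _).2 (hg (h.1⁻¹ x))
    simpa using this⟩
  have hc : ∀ n, ⁅F n, ⊤⁆ ≤ F (n + 1) := by
    intro n
    have := hn (n + 1)
    rw [Subgroup.commutator_le]
    intro g hg h _
    have := hgen ((Subgroup.centralizer {QuotientGroup.mk' (F (n + 1)) g}).comap
      (QuotientGroup.mk' (F (n + 1)))) (fun a => by
        rw [Subgroup.mem_comap, Subgroup.mem_centralizer_singleton_iff, eq_comm,
          ← commutatorElement_eq_one_iff_mul_comm, ← map_commutatorElement, ← MonoidHom.mem_ker,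
          QuotientGroup.ker_mk', commutatorElement_def, ← hρ]
        intro x
        have := hcov n _ _ (hg a) ((R a)⁻¹ x)
        simpa [ρ] using this) h
    rwa [Subgroup.mem_comap, Subgroup.mem_centralizer_singleton_iff, eq_comm,
      ← commutatorElement_eq_one_iff_mul_comm, ← map_commutatorElement, ← MonoidHom.mem_ker,
      QuotientGroup.ker_mk'] at this
  have hFM : F M = ⊥ := eq_bot_iff.2 fun g hg =>
    Subgroup.mem_bot.2 (Subtype.ext (Equiv.ext fun x => hM _ _ (hg x)))
  let D : Subgroup G := Subgroup.closure {x | ∃ a b, x = ρ a * (ρ b)⁻¹}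
  have hDn : D.Normal := ⟨fun d hd g => by
    induction hd using Subgroup.closure_induction with
    | mem _ h =>
      obtain ⟨a, b, rfl⟩ := h
      exact Subgroup.subset_closure ⟨g.1 a, g.1 b, by rw [hρ, hρ]; group⟩
    | one => simp
    | mul a b _ _ h1 h2 => simpa [mul_assoc] using D.mul_mem h1 h2
    | inv a _ h => simpa [mul_assoc] using D.inv_mem h⟩
  have htr : ∀ x, ∃ d ∈ D, d.1 q = x := by
    intro x
    obtain ⟨g, hg, rfl⟩ := hcon x
    obtain ⟨i, hi⟩ := hgen ((Subgroup.zpowers (QuotientGroup.mk' D (ρ q))).comap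
      (QuotientGroup.mk' D)) (fun a => ⟨1, by
        beta_reduce
        rw [zpow_one, QuotientGroup.mk'_apply, QuotientGroup.mk'_apply, QuotientGroup.eq_iff_div_mem,
          div_eq_mul_inv]
        exact Subgroup.subset_closure ⟨_, _, rfl⟩⟩) ⟨g, hg⟩
    simp only at hi
    rw [← map_zpow, eq_comm, QuotientGroup.mk'_apply, QuotientGroup.mk'_apply,
      QuotientGroup.eq_iff_div_mem, div_eq_mul_inv, ← zpow_neg] at hi
    refine ⟨_, hi, ?_⟩
    simp only [Subgroup.coe_mul, Equiv.Perm.mul_apply, SubgroupClass.coe_zpow, ρ]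
    rw [Equiv.Perm.zpow_apply_eq_self_of_apply_eq_self hid]
  obtain ⟨h1, h2⟩ := grp F hn hc M hFM D (ρ q) ((Subgroup.closure_le _).2 (by
    rintro _ ⟨a, b, rfl⟩
    obtain ⟨d, hd, rfl⟩ := htr a
    obtain ⟨e, he, rfl⟩ := htr b
    have : ρ (d.1 q) * (ρ (e.1 q))⁻¹ = ⁅d, ρ q⁆ * ⁅e, ρ q⁆⁻¹ := by
      rw [hρ, hρ, commutatorElement_def, commutatorElement_def]
      group
    rw [this]
    exact Subgroup.mul_mem _ (Subgroup.subset_closure ⟨d, hd, rfl⟩)
      (Subgroup.inv_mem _ (Subgroup.subset_closure ⟨e, he, rfl⟩))))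
  refine le_trans ?_ (schur _ h1 h2 m (le_trans ?_ hm))
  · refine Nat.card_le_card_of_surjective (fun d : D => d.1.1 q) fun x => ?_
    obtain ⟨d, hd, rfl⟩ := htr x
    exact ⟨⟨d, hd⟩, rfl⟩
  · have : Nonempty X := ⟨q⟩
    rw [← Nat.card_fun]
    refine Nat.card_le_card_of_injective
      (fun (c : D ⧸ (F 0).subgroupOf D) (y : Y) => π (c.out.1.1 (Function.invFun π y))) ?_
    intro a b h
    rw [← a.out_eq, ← b.out_eq]
    refine QuotientGroup.eq.2 fun x => ?_
    have h3 := hπ _ _ (congrFun h (π x))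
    have h4 := hπ _ _ (Function.invFun_eq (f := π) ⟨x, rfl⟩)
    have h5 := (E 0).trans ((E 0).symm ((hEg 0 b.out.1 _ _).2 h4))
      ((E 0).trans ((E 0).symm h3) ((hEg 0 a.out.1 _ _).2 h4))
    rw [← hEg 0 a.out.1]
    simpa using h5

theorem result : ¬ ∃ (Q : ℕ → Type) (op : ∀ n, Q n → Q n → Q n),
    (∀ n, Finite (Q n) ∧ Nonempty (Q n) ∧ IsQuandle (op n) ∧ Connected (op n)) ∧
      ∀ n, IsExt (op n) (op (n + 1)) := by
  rintro ⟨Q, op, hQ, hx⟩
  have hinj : ∀ n z, Function.Injective fun x => op n x z := fun n z a b h =>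
    ((hQ n).2.2.1.2.1 z _).unique h rfl
  have key : ∀ N, N ≤ Nat.card (Q N) ∧ ∃ (E : ℕ → Setoid (Q N)) (M : ℕ) (π : Q N → Q 0),
      (∀ n z x y, E n (op N x z) (op N y z) ↔ E n x y) ∧
      (∀ n x y, E n x y → ∀ z, E (n + 1) (op N z x) (op N z y)) ∧
      (∀ n, M ≤ n → ∀ x y, E n x y → x = y) ∧ ∀ x y, π x = π y → E 0 x y := by
    intro N
    induction N with
    | zero =>
      refine ⟨Nat.zero_le _, fun _ => ⊥, 0, id, fun _ z x y => (hinj 0 z).eq_iff, ?_,
        fun _ _ _ _ h => h, fun _ _ h => h⟩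
      rintro _ x y (rfl : x = y) z
      rfl
    | succ N ih =>
      obtain ⟨h0, E, M, π, h1, h2, h3, h4⟩ := ih
      obtain ⟨A, _, _, φ, e, -, -, he⟩ := hx N
      have := (hQ N).1
      have := (hQ N).2.1
      have := (hQ (N + 1)).1
      refine ⟨?_, fun n => ⟨fun x y => E n (e x).1 (e y).1 ∧ (M < n → x = y), fun x => ⟨(E n).refl _,
        fun _ => rfl⟩, fun h => ⟨(E n).symm h.1, fun h' => (h.2 h').symm⟩,
        fun h h' => ⟨(E n).trans h.1 h'.1, fun k => (h.2 k).trans (h'.2 k)⟩⟩, M + 1,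
        fun x => π (e x).1, ?_, ?_, fun n hn x y h => h.2 hn,
        fun x y h => ⟨h4 _ _ h, fun h => absurd h (by simp)⟩⟩
      · have hf : Finite (Q N × A) := Finite.of_equiv _ e
        have : Finite A := Finite.prod_right (Q N)
        rw [Nat.card_congr e, Nat.card_prod]
        have h5 : 1 < Nat.card A := Finite.one_lt_card
        have h6 : 0 < Nat.card (Q N) := Nat.card_pos
        nlinarith
      · intro n z x y
        refine and_congr ?_ (imp_congr_right fun _ => (hinj _ z).eq_iff)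
        simp only [he]
        exact h1 _ _ _ _
      · intro n x y h z
        refine ⟨by simp only [he]; exact h2 _ _ _ h.1 _, fun hn => e.injective ?_⟩
        rw [he, he, h3 n (by omega) _ _ h.1]
  obtain ⟨m, hm⟩ : ∃ m, Nat.card (Q 0) ^ Nat.card (Q 0) ≤ m := ⟨_, le_rfl⟩
  obtain ⟨h0, E, M, π, h1, h2, h3, h4⟩ := key (m ^ (m * (m * m) + 1) * m + 1)
  generalize hN : m ^ (m * (m * m) + 1) * m + 1 = N at *
  obtain ⟨_, ⟨q⟩, ⟨a1, a2, a3⟩, hc⟩ := hQ N
  have := (hQ 0).1
  let R : Q N → Equiv.Perm (Q N) := fun z => Equiv.ofBijective (fun x => op N x z)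
    ⟨hinj N z, fun c => (a2 z c).exists⟩
  have := main q R (fun a b => by
      rw [eq_mul_inv_iff_mul_eq]
      ext x
      exact (a3 _ _ _).symm) (a1 q) (fun x => by
      obtain ⟨g, hg, h⟩ := hc q x
      refine ⟨g, Subgroup.closure_mono ?_ hg, h⟩
      rintro s ⟨a, ha⟩
      exact ⟨a, Equiv.ext fun z => (ha z).symm⟩) E h1 h2 M (h3 M le_rfl) π h4 m hm
  omega

end Pool.Agent.Results.MP_caf75b_al.No
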